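import Pool.Agent.H92.SF.LUT
import Pool.Agent.H62.HIL.Gen
import Pool.Agent.H62.HIL.Eig
import Pool.Agent.H16.SM.LED

/-!
# UTH: dimension of the space of sections divisible by `P ^ i`
-/

set_option autoImplicit false

namespace Pool.Agent.H92.SFU

open MvPolynomial
open Pool.Agent.H84.SM (dp cr dt)
open Pool.Agent.H3.SF Pool.Agent.H92.SF

namespace UTHx

theorem kro_pow {A F σ : Type} [CommRing A] [Field F] (φ : A →+* F)
    (f : Polynomial (MvPolynomial σ F)) (i : ℕ) : ∀ (g : Polynomial (MvPolynomial σ F)),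
    (∀ j m, φ.IsIntegralElem (((f ^ i * g).coeff j).coeff m)) → ∀ (j0 : ℕ) (m0 : σ →₀ ℕ)
    (j : ℕ) (m : σ →₀ ℕ),
    φ.IsIntegralElem (((f.coeff j0).coeff m0) ^ i * (g.coeff j).coeff m) := by
  induction i with
  | zero =>
    intro g h j0 m0 j m
    have h1 := h j m
    rw [pow_zero, one_mul] at h1 ⊢
    exact h1
  | succ i ih =>
    intro g h j0 m0 j m
    have h1 := ih (f * g) (by
      intro j m
      have h2 := h j m
      rw [pow_succ, mul_assoc] at h2
      exact h2) j0 m0
    set c := (f.coeff j0).coeff m0 with hc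
    have h3 : ∀ j m, φ.IsIntegralElem
        (((f * (Polynomial.C (C (c ^ i)) * g)).coeff j).coeff m) := by
      intro j m
      have h4 : f * (Polynomial.C (C (c ^ i)) * g) = Polynomial.C (C (c ^ i)) * (f * g) := by ring
      rw [h4, Polynomial.coeff_C_mul, coeff_C_mul]
      exact h1 j m
    have h5 := Pool.Agent.H62.HIL.pf_KRO φ f (Polynomial.C (C (c ^ i)) * g) h3 j0 m0 j m
    rw [Polynomial.coeff_C_mul, coeff_C_mul, ← hc] at h5
    rw [pow_succ]
    have h6 : c ^ i * c * (g.coeff j).coeff m = c * (c ^ i * (g.coeff j).coeff m) := by ring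
    rw [h6]
    exact h5

variable {k F : Type} [Field k] [Field F] [Algebra k F]

theorem kap_smul (u : Fin 3 → F) (c : kap k u) (V : Q2 F) :
    c • V = Polynomial.C (C (c : F)) * V := by
  rw [Algebra.smul_def]
  rfl

/-- the elements `x` of degree `e` with `x`, `x * y ^ i` integral -/
noncomputable def XX (u : Fin 3 → F) (dd : Fin 3 → Derivation k F F)
    (hE : ∀ c ∈ kap k u, eu u dd c = 0) (y : ℕ → (Fin 3 →₀ ℕ) → F) (i : ℕ) (e : ℤ) :
    Submodule (kap k u) F where
  carrier := {x | Hm k (eu u dd) e x ∧ ItK k u x ∧ ∀ j a, ItK k u (x * y j a ^ i)}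
  add_mem' := by
    rintro a b ⟨ha1, ha2, ha3⟩ ⟨hb1, hb2, hb3⟩
    refine ⟨Pool.Agent.H62.HIL.hm_add ha1 hb1, (Bb (kap k u) ![u 0, u 2]).add_mem ha2 hb2,
      fun j c => ?_⟩
    rw [add_mul]
    exact (Bb (kap k u) ![u 0, u 2]).add_mem (ha3 j c) (hb3 j c)
  zero_mem' := by
    refine ⟨Pool.Agent.H62.HIL.hm_zero e, (Bb (kap k u) ![u 0, u 2]).zero_mem, fun j c => ?_⟩
    rw [zero_mul]
    exact (Bb (kap k u) ![u 0, u 2]).zero_mem
  smul_mem' := by
    rintro r a ⟨ha1, ha2, ha3⟩
    refine ⟨?_, (Bb (kap k u) ![u 0, u 2]).smul_mem ha2 r, fun j c => ?_⟩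
    · unfold Hm at *
      rw [Algebra.smul_def, Derivation.leibniz, ha1]
      have h1 : eu u dd (algebraMap (kap k u) F r) = 0 := hE r r.2
      rw [h1, smul_zero, add_zero, smul_eq_mul]
      ring
    · rw [smul_mul_assoc]
      exact (Bb (kap k u) ![u 0, u 2]).smul_mem (ha3 j c) r

end UTHx

open UTHx

theorem pf_UTH (hDAT : T_DAT) (hFRK : T_FRK) (hDEG : T_DEG) (hFAC : Pool.Agent.H92.SF.T_FAC)
    (hUTW : T_UTW) : T_UTH := by
  classical
  intro k F _ _ _ _ _ u dd δ j0 c0 J m G hG w τP P hP0 hP a0 ha0 g i hgain n τ W hW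
  have hB := hG.toBs
  obtain ⟨-, hu0, hJ0, hmG, hE1, hEJ, -, -, -, -⟩ := hDAT k F u dd δ j0 c0 J m G hB
  obtain ⟨-, -, hE, -, -, -⟩ := hFRK k F u dd δ j0 c0 J m G hB
  set jP := P.natDegree with hjP
  set cst := cf u dd J m G P jP a0 with hcst
  have h3jP : 3 * jP ≤ w := by
    by_contra hcon
    push Not at hcon
    have h1 := (hP.1 P.natDegree).2 hcon
    exact hP0 (Polynomial.leadingCoeff_eq_zero.mp h1)
  -- division by `P ^ i`
  have hPi : P ^ i ≠ 0 := pow_ne_zero _ hP0
  let M : Q2 F →ₗ[kap k u] Q2 F := LinearMap.mulLeft (kap k u) (P ^ i)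
  have hMinj : Function.Injective M := mul_right_injective₀ hPi
  let W' : Submodule (kap k u) (Q2 F) := W.comap M
  have hW' : ∀ N, N ∈ W' ↔ P ^ i * N ∈ W := fun N => Iff.rfl
  let eqv : W' ≃ₗ[kap k u] W := LinearEquiv.ofBijective
    (M.restrict (p := W') (q := W) fun N hN => hN) ⟨by
      intro a b hab
      have h1 : M a.1 = M b.1 := congrArg (fun z : W => z.1) hab
      exact Subtype.ext (hMinj h1), by
      intro V
      obtain ⟨N, hN⟩ := (hW V.1 V.2).2.2
      refine ⟨⟨N, ?_⟩, Subtype.ext hN.symm⟩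
      rw [hW', ← hN]
      exact V.2⟩
  suffices h : Module.Finite (kap k u) W' ∧
      (Module.finrank (kap k u) W' : ℤ) ≤ SS δ j0 m w jP g n i τ by
    obtain ⟨h1, h2⟩ := h
    refine ⟨Module.Finite.equiv eqv, ?_⟩
    rw [← eqv.finrank_eq]
    exact h2
  by_cases hn : n < w * i
  · have hbot : W' = ⊥ := by
      rw [eq_bot_iff]
      intro N hN
      rw [Submodule.mem_bot]
      by_contra hN0
      have h1 := (hW _ ((hW' N).mp hN)).1
      have h2 := (hFAC k F u dd δ j0 c0 J m G hB n w i τ τP P N hP h1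
        (mul_ne_zero hPi hN0)).1
      omega
    rw [hbot]
    refine ⟨inferInstance, ?_⟩
    rw [finrank_bot, SS, if_pos hn]
    simp
  push Not at hn
  obtain ⟨n', hn'⟩ : ∃ n', n' = n - w * i := ⟨_, rfl⟩
  have hnn : n = n' + w * i := by omega
  have hTw : ∀ N ∈ W', Tw u dd n' (τ - i * τP) N := by
    intro N hN
    by_cases hN0 : N = 0
    · subst hN0
      refine ⟨fun j => ⟨fun _ => ?_, fun _ => ?_⟩, fun j a => ?_⟩
      · rw [Polynomial.coeff_zero]
        exact isHomogeneous_zero _ _ _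
      · simp
      · rw [Polynomial.coeff_zero, coeff_zero]
        exact Pool.Agent.H62.HIL.hm_zero _
    · have h1 := (hW _ ((hW' N).mp hN)).1
      have h2 := (hFAC k F u dd δ j0 c0 J m G hB n w i τ τP P N hP h1
        (mul_ne_zero hPi hN0)).2
      rw [← hn'] at h2
      exact h2
  have hKRO : ∀ N ∈ W', ∀ (j : ℕ) (a : Fin 3 →₀ ℕ) (j' : ℕ) (a' : Fin 3 →₀ ℕ),
      ItK k u (cf u dd J m G P j a ^ i * cf u dd J m G N j' a') := by
    intro N hN j a j' a'
    have h1 := (hW _ ((hW' N).mp hN)).2.1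
    refine kro_pow _ (Ps u dd J m G P) i (Ps u dd J m G N) ?_ j a j' a'
    intro j m'
    have h2 := h1 j m'
    unfold cf at h2
    rw [map_mul, map_pow] at h2
    exact h2
  set y : ℕ → (Fin 3 →₀ ℕ) → F := fun j a => cf u dd J m G P j a / cst with hy
  -- the multiplier
  let mu : ℕ → ℕ → F := fun s b => cst ^ i * (G ^ (s + b) * aeval u J ^ (2 * (n' - 3 * s)) *
    u 0 ^ (n' - 3 * s))
  have hmu : ∀ s b, mu s b ≠ 0 := by
    intro s b
    refine mul_ne_zero (pow_ne_zero _ ha0) (mul_ne_zero (mul_ne_zero (pow_ne_zero _ hG.ne)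
      (pow_ne_zero _ hJ0)) (pow_ne_zero _ (hu0 0)))
  let dg : ℕ → ℕ → ℤ := fun s b => (τ - i * τP - 2 * n' + 3 * s) +
    (i * (τP + w * ((m : ℤ) + 2 * j0 - 2) - jP * (2 * m + 6 * j0 - 3)) +
      (((s + b : ℕ) : ℤ) * m + ((2 * (n' - 3 * s) : ℕ) : ℤ) * j0 +
        ((n' - 3 * s : ℕ) : ℤ) * 1))
  have hdg : ∀ (s b : ℕ) (c : F), Hm k (eu u dd) (τ - i * τP - 2 * n' + 3 * s) c →
      Hm k (eu u dd) (dg s b) (c * mu s b) := by
    intro s b c hc
    have hcs : Hm k (eu u dd) (τP + w * ((m : ℤ) + 2 * j0 - 2) - jP * (2 * m + 6 * j0 - 3)) cst :=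
      (hDEG k F u dd δ j0 c0 J m G hB w τP P hP).1 jP a0
    exact Pool.Agent.H62.HIL.hm_mul hc (Pool.Agent.H62.HIL.hm_mul
      (Pool.Agent.H62.HIL.hm_pow hcs i) (Pool.Agent.H62.HIL.hm_mul
        (Pool.Agent.H62.HIL.hm_mul (Pool.Agent.H62.HIL.hm_pow hG.hom _)
          (Pool.Agent.H62.HIL.hm_pow hEJ _)) (Pool.Agent.H62.HIL.hm_pow (hE1 0) _)))
  -- the spaces of values
  let Y : ℕ → ℕ → Submodule (kap k u) F := fun s b =>
    (XX u dd hE y i (dg s b)).comap (LinearMap.mulRight (kap k u) (mu s b))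
  have hY : ∀ s b, 3 * s + b ≤ n' → Module.Finite (kap k u) (Y s b) ∧
      (Module.finrank (kap k u) (Y s b) : ℤ) ≤
        max 0 (δ * (τ + m * ((s : ℤ) + b) + i * m * ((w : ℤ) - 2 * jP) + 2 * j0 * n + 1) - i * g) := by
    intro s b hsb
    obtain ⟨h1, h2⟩ := hgain (dg s b) (XX u dd hE y i (dg s b)) (fun x hx => hx)
    let f : Y s b →ₗ[kap k u] XX u dd hE y i (dg s b) :=
      (LinearMap.mulRight (kap k u) (mu s b)).restrict (p := Y s b) fun x hx => hx
    have hf : Function.Injective f := by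
      intro a b' hab
      have h3 : a.1 * mu s b = b'.1 * mu s b := congrArg (fun z : XX u dd hE y i (dg s b) => z.1) hab
      exact Subtype.ext (mul_right_cancel₀ (hmu s b) h3)
    refine ⟨Module.Finite.of_injective f hf, ?_⟩
    have h4 : Module.finrank (kap k u) (Y s b) ≤ Module.finrank (kap k u)
        (XX u dd hE y i (dg s b)) := LinearMap.finrank_le_finrank_of_injective hf
    have h5 : (Module.finrank (kap k u) (Y s b) : ℤ) ≤ max 0 (δ * (dg s b + 1) - i * g) :=
      le_trans (by exact_mod_cast h4) h2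
    refine le_trans h5 (max_le_max le_rfl ?_)
    have h6 : dg s b ≤ τ + m * ((s : ℤ) + b) + i * m * ((w : ℤ) - 2 * jP) + 2 * j0 * n := by
      obtain ⟨r, hr⟩ : ∃ r, n' = 3 * s + r := ⟨n' - 3 * s, by omega⟩
      obtain ⟨w', hw'⟩ : ∃ w', w = 3 * jP + w' := ⟨w - 3 * jP, by omega⟩
      have h7 : n' - 3 * s = r := by omega
      have h8 : τ + m * ((s : ℤ) + b) + i * m * ((w : ℤ) - 2 * jP) + 2 * j0 * n - dg s b =
          6 * j0 * jP * i + i * (2 * w' + 3 * jP) + (3 * s + r) + 6 * j0 * s := by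
        simp only [dg]
        rw [h7, hnn, hr, hw']
        push_cast
        ring
      have h9 : (0 : ℤ) ≤ 6 * j0 * jP * i + i * (2 * w' + 3 * jP) + (3 * s + r) + 6 * j0 * s := by
        positivity
      linarith
    have hδ : (0 : ℤ) ≤ δ := Int.natCast_nonneg δ
    nlinarith
  -- the inner filtration
  let a2 : ℕ → ℕ → (Fin 2 →₀ ℕ) := fun s b => Finsupp.single 0 b + Finsupp.single 1 (n' - 3 * s - b)
  have ha20 : ∀ s b, a2 s b 0 = b := by
    intro s b
    simp [a2]
  have ha21 : ∀ s b, a2 s b 1 = n' - 3 * s - b := by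
    intro s b
    simp [a2]
  let cw : ℕ → (Q2 F →ₗ[kap k u] MvPolynomial (Fin 2) F) := fun s =>
    { toFun := fun N => N.coeff s
      map_add' := fun a b => Polynomial.coeff_add a b s
      map_smul' := fun r a => by
        rw [kap_smul, Polynomial.coeff_C_mul, RingHom.id_apply, Algebra.smul_def]
        rfl }
  let cb : (Fin 2 →₀ ℕ) → (MvPolynomial (Fin 2) F →ₗ[kap k u] F) := fun a =>
    { toFun := fun f => f.coeff a
      map_add' := fun f g => coeff_add a f g
      map_smul' := fun r f => by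
        rw [RingHom.id_apply, Algebra.smul_def, Algebra.smul_def]
        exact coeff_C_mul _ _ _ }
  let WJ : ℕ → Submodule (kap k u) (Q2 F) := fun s =>
    W' ⊓ ⨅ j : {j : ℕ // s < j}, LinearMap.ker (cw j)
  have hWJ : ∀ s N, N ∈ WJ s ↔ N ∈ W' ∧ ∀ j, s < j → N.coeff j = 0 := by
    intro s N
    constructor
    · rintro ⟨h1, h2⟩
      refine ⟨h1, fun j hj => ?_⟩
      rw [SetLike.mem_coe, Submodule.mem_iInf] at h2
      exact h2 ⟨j, hj⟩
    · rintro ⟨h1, h2⟩
      refine ⟨h1, ?_⟩
      rw [SetLike.mem_coe, Submodule.mem_iInf]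
      intro j
      exact h2 j.1 j.2
  let FJ : ℕ → Submodule (kap k u) (MvPolynomial (Fin 2) F) := fun s => (WJ s).map (cw s)
  have hFJ : ∀ s, 3 * s ≤ n' → Module.Finite (kap k u) (FJ s) ∧
      (Module.finrank (kap k u) (FJ s) : ℤ) ≤ ∑ b ∈ Finset.range (n' - 3 * s + 1),
        max 0 (δ * (τ + m * ((s : ℤ) + b) + i * m * ((w : ℤ) - 2 * jP) + 2 * j0 * n + 1) - i * g) := by
    intro s hs
    have hhom : ∀ f ∈ FJ s, f.IsHomogeneous (n' - 3 * s) := by
      rintro f ⟨N, hN, rfl⟩
      exact ((hTw N ((hWJ s N).mp hN).1).1 s).1 hs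
    have hled := Pool.Agent.H16.SM.pf_LED (kap k u) (FJ s) F (n' - 3 * s + 1)
      (fun y => (cb (a2 s (n' - 3 * s - y))).comp (FJ s).subtype)
      (fun y => Y s (n' - 3 * s - y)) ⊥ (fun y => (hY s _ (by omega)).1) inferInstance ?_ ?_
    · refine ⟨hled.1, ?_⟩
      have h1 := hled.2
      rw [finrank_bot, zero_add] at h1
      have h2 : (Module.finrank (kap k u) (FJ s) : ℤ) ≤ ∑ y : Fin (n' - 3 * s + 1),
          (Module.finrank (kap k u) (Y s (n' - 3 * s - y)) : ℤ) := by
        exact_mod_cast h1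
      refine le_trans h2 ?_
      rw [Fin.sum_univ_eq_sum_range
        (fun y => (Module.finrank (kap k u) (Y s (n' - 3 * s - y)) : ℤ)) (n' - 3 * s + 1)]
      rw [← Finset.sum_range_reflect _ (n' - 3 * s + 1)]
      refine Finset.sum_le_sum fun b hb => ?_
      have hb' := Finset.mem_range.mp hb
      have h3 : n' - 3 * s - (n' - 3 * s + 1 - 1 - b) = b := by omega
      rw [h3]
      exact (hY s b (by omega)).2
    · intro f hf
      rw [Submodule.mem_bot]
      apply Subtype.ext
      show f.1 = 0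
      ext a
      rw [coeff_zero]
      by_cases ha : a 0 + a 1 = n' - 3 * s
      · have h1 := hf ⟨n' - 3 * s - a 0, by omega⟩
        have h2 : a2 s (n' - 3 * s - (n' - 3 * s - a 0)) = a := by
          ext j
          fin_cases j
          · show a2 s _ 0 = a 0
            rw [ha20]
            omega
          · show a2 s _ 1 = a 1
            rw [ha21]
            omega
        have h3 : f.1.coeff (a2 s (n' - 3 * s - (n' - 3 * s - a 0))) = 0 := h1
        rwa [h2] at h3
      · apply (hhom f.1 f.2).coeff_eq_zero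
        intro h
        apply ha
        rw [← h, Finsupp.degree_eq_sum]
        simp [Fin.sum_univ_two]
    · intro f y hf
      obtain ⟨N, hN, hNf⟩ := f.2
      obtain ⟨hN1, hN2⟩ := (hWJ s N).mp hN
      have hTN := hTw N hN1
      set b := n' - 3 * s - (y : ℕ) with hb
      have hyb : (y : ℕ) < n' - 3 * s + 1 := y.2
      have hNf' : N.coeff s = f.1 := hNf
      set c : F := f.1.coeff (a2 s b) with hc
      have hcN : (N.coeff s).coeff (a2 s b) = c := by rw [hNf']
      have hbn : b ≤ n' - 3 * s := by omega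
      have hvan : ∀ a' : Fin 2 →₀ ℕ, a2 s b 0 < a' 0 → f.1.coeff a' = 0 := by
        intro a' ha'
        rw [ha20] at ha'
        by_cases hs' : a' 0 + a' 1 = n' - 3 * s
        · have h1 := hf ⟨n' - 3 * s - a' 0, by omega⟩ (by
            rw [Fin.lt_def]
            show n' - 3 * s - a' 0 < (y : ℕ)
            omega)
          have h2 : a2 s (n' - 3 * s - (n' - 3 * s - a' 0)) = a' := by
            ext j
            fin_cases j
            · show a2 s _ 0 = a' 0
              rw [ha20]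
              omega
            · show a2 s _ 1 = a' 1
              rw [ha21]
              omega
          have h3 : f.1.coeff (a2 s (n' - 3 * s - (n' - 3 * s - a' 0))) = 0 := h1
          rwa [h2] at h3
        · apply (hhom f.1 f.2).coeff_eq_zero
          intro h
          apply hs'
          rw [← h, Finsupp.degree_eq_sum]
          simp [Fin.sum_univ_two]
      have hutw : ∀ (j : ℕ) (a' : Fin 3 →₀ ℕ), ItK k u (cf u dd J m G P j a' ^ i * c *
          G ^ (s + b) * aeval u J ^ (2 * (n' - 3 * s)) * u 0 ^ (n' - 3 * s)) := by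
        intro j a'
        have hcoef : ∀ j', (cq (cf u dd J m G P j a' ^ i) * N).coeff j' =
            C (cf u dd J m G P j a' ^ i) * N.coeff j' := fun j' => Polynomial.coeff_C_mul _
        have h1 := hUTW k F u dd δ j0 c0 J m G hG n' (cq (cf u dd J m G P j a' ^ i) * N) (by
          intro j'
          refine ⟨fun h => ?_, fun h => ?_⟩
          · rw [hcoef]
            have h2 := (isHomogeneous_C (Fin 2) (cf u dd J m G P j a' ^ i)).mul ((hTN.1 j').1 h)
            rwa [zero_add] at h2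
          · rw [hcoef, (hTN.1 j').2 h, mul_zero]) (by
          intro j' a''
          have h2 : cf u dd J m G (cq (cf u dd J m G P j a' ^ i) * N) j' a'' =
              cf u dd J m G P j a' ^ i * cf u dd J m G N j' a'' := by
            have h30 : ∀ z : F, Ps u dd J m G (cq z * N) =
                Polynomial.C (C z) * Ps u dd J m G N := by
              intro z
              rw [map_mul]
              congr 1
              simp [Ps, Psi, ev2, cc, cq]
            have h3 := h30 (cf u dd J m G P j a' ^ i)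
            rw [cf, h3, Polynomial.coeff_C_mul, coeff_C_mul]
            rfl
          rw [h2]
          exact hKRO N hN1 j a' j' a'') s (a2 s b) (by
            rw [ha20, ha21]
            omega) (by
          intro j' hj'
          rw [hcoef, hN2 j' hj', mul_zero]) (by
          intro a'' ha''
          rw [hcoef, coeff_C_mul, hNf', hvan a'' ha'', mul_zero])
        rw [hcoef, coeff_C_mul, hcN, ha20] at h1
        exact h1
      show Hm k (eu u dd) (dg s b) (c * mu s b) ∧ ItK k u (c * mu s b) ∧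
        ∀ (j : ℕ) (a' : Fin 3 →₀ ℕ), ItK k u (c * mu s b * (cf u dd J m G P j a' / cst) ^ i)
      refine ⟨hdg s b c ?_, ?_, fun j a' => ?_⟩
      · have h1 := hTN.2 s (a2 s b)
        rwa [hcN] at h1
      · have h1 := hutw jP a0
        have h2 : c * mu s b = cf u dd J m G P jP a0 ^ i * c *
          G ^ (s + b) * aeval u J ^ (2 * (n' - 3 * s)) * u 0 ^ (n' - 3 * s) := by
          simp only [mu, hcst]
          ring
        rw [h2]
        exact h1
      · have h1 := hutw j a'
        have h2 : c * mu s b * (cf u dd J m G P j a' / cst) ^ i = cf u dd J m G P j a' ^ i * c *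
          G ^ (s + b) * aeval u J ^ (2 * (n' - 3 * s)) * u 0 ^ (n' - 3 * s) := by
          simp only [mu]
          rw [div_pow]
          have h3 : cst ^ i ≠ 0 := pow_ne_zero _ ha0
          field_simp
        rw [h2]
        exact h1
  -- the outer filtration
  have hled := Pool.Agent.H16.SM.pf_LED (kap k u) W' (MvPolynomial (Fin 2) F) (n' / 3 + 1)
    (fun x => (cw (n' / 3 - x)).comp W'.subtype) (fun x => FJ (n' / 3 - x)) ⊥
    (fun x => (hFJ _ (by omega)).1) inferInstance ?_ ?_
  · refine ⟨hled.1, ?_⟩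
    have h1 := hled.2
    rw [finrank_bot, zero_add] at h1
    have h2 : (Module.finrank (kap k u) W' : ℤ) ≤ ∑ x : Fin (n' / 3 + 1),
        (Module.finrank (kap k u) (FJ (n' / 3 - x)) : ℤ) := by
      exact_mod_cast h1
    refine le_trans h2 ?_
    rw [Fin.sum_univ_eq_sum_range
      (fun x => (Module.finrank (kap k u) (FJ (n' / 3 - x)) : ℤ)) (n' / 3 + 1)]
    rw [← Finset.sum_range_reflect _ (n' / 3 + 1), SS, if_neg (by omega), ← hn']
    refine Finset.sum_le_sum fun s hs => ?_
    have hs' := Finset.mem_range.mp hs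
    have h3 : n' / 3 - (n' / 3 + 1 - 1 - s) = s := by omega
    rw [h3]
    exact (hFJ s (by omega)).2
  · intro N hN
    rw [Submodule.mem_bot]
    apply Subtype.ext
    show N.1 = 0
    ext1 j
    rw [Polynomial.coeff_zero]
    by_cases hj : j ≤ n' / 3
    · have h1 := hN ⟨n' / 3 - j, by omega⟩
      have h2 : N.1.coeff (n' / 3 - (n' / 3 - j)) = 0 := h1
      rwa [show n' / 3 - (n' / 3 - j) = j by omega] at h2
    · exact ((hTw N.1 N.2).1 j).2 (by omega)
  · intro N x hN
    refine ⟨N.1, ?_, rfl⟩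
    show N.1 ∈ WJ (n' / 3 - x)
    rw [hWJ]
    refine ⟨N.2, fun j hj => ?_⟩
    by_cases hj' : j ≤ n' / 3
    · have h1 := hN ⟨n' / 3 - j, by omega⟩ (by
        rw [Fin.lt_def]
        show n' / 3 - j < (x : ℕ)
        omega)
      have h2 : N.1.coeff (n' / 3 - (n' / 3 - j)) = 0 := h1
      rwa [show n' / 3 - (n' / 3 - j) = j by omega] at h2
    · exact ((hTw N.1 N.2).1 j).2 (by omega)

end Pool.Agent.H92.SFU
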