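import Pool.Agent.H92.SF.LUT
import Pool.Agent.H92.SF.VAL
import Pool.Agent.H62.HIL.Gen

/-!
# UTW: the leading coefficient
-/

set_option autoImplicit false

namespace Pool.Agent.H92.SFU

open MvPolynomial
open Pool.Agent.H84.SM (dp cr dt)
open Pool.Agent.H3.SF Pool.Agent.H92.SF

section Aux

variable {F : Type} [Field F]

/-- coefficient of the top power of the parameter -/
theorem coeff_top (f : MvPolynomial (Fin 2) F) (i : ℕ) (hf : f.IsHomogeneous i)
    (a : Fin 2 →₀ ℕ) (hai : a 0 + a 1 = i) (ha : ∀ a' : Fin 2 →₀ ℕ, a 0 < a' 0 → f.coeff a' = 0)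
    (A B D : F) :
    (eval₂Hom (Polynomial.C : F →+* Polynomial F)
      ![Polynomial.C A * Polynomial.X + Polynomial.C B, Polynomial.C D] f).coeff (a 0) =
      f.coeff a * A ^ a 0 * D ^ a 1 := by
  classical
  have hdeg : ∀ n : ℕ, ((Polynomial.C A * Polynomial.X + Polynomial.C B) ^ n).natDegree ≤ n := by
    intro n
    refine le_trans Polynomial.natDegree_pow_le ?_
    refine le_trans (Nat.mul_le_mul_left n (Polynomial.natDegree_linear_le)) (by omega)
  have hlead : ∀ n : ℕ, ((Polynomial.C A * Polynomial.X + Polynomial.C B) ^ n).coeff n =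
      A ^ n := by
    intro n
    have h := Polynomial.coeff_pow_of_natDegree_le
      (p := Polynomial.C A * Polynomial.X + Polynomial.C B) (n := 1) (m := n)
      Polynomial.natDegree_linear_le
    rw [mul_one] at h
    rw [h]
    simp
  have key : ∀ α ∈ f.support, (Polynomial.C (f.coeff α) *
      ∏ j, ![Polynomial.C A * Polynomial.X + Polynomial.C B, Polynomial.C D] j ^ α j :
      Polynomial F).coeff (a 0) = if α = a then f.coeff a * A ^ a 0 * D ^ a 1 else 0 := by
    intro α hα
    have hα' := mem_support_iff.mp hα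
    have h1 : α 0 + α 1 = i := by
      have h2 := hf hα'
      rw [← h2, Finsupp.weight_apply, Finsupp.sum_fintype _ _ (by simp)]
      simp [Fin.sum_univ_two]
    have h3 : α 0 ≤ a 0 := by
      by_contra h
      exact hα' (ha α (by omega))
    rw [Fin.prod_univ_two]
    simp only [Matrix.cons_val_zero, Matrix.cons_val_one]
    rw [← map_pow, mul_comm (_ ^ α 0), ← mul_assoc, ← map_mul, Polynomial.coeff_C_mul]
    split_ifs with h
    · subst h
      rw [hlead]
      ring
    · have h4 : α 0 < a 0 := by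
        rcases Nat.lt_or_ge (α 0) (a 0) with h5 | h5
        · exact h5
        · exfalso
          apply h
          ext j
          fin_cases j
          · exact le_antisymm h3 h5
          · show α 1 = a 1
            omega
      rw [Polynomial.coeff_eq_zero_of_natDegree_lt (lt_of_le_of_lt (hdeg _) h4), mul_zero]
  rw [coe_eval₂Hom, eval₂_eq', Polynomial.finsetSum_coeff, Finset.sum_congr rfl key,
    Finset.sum_ite_eq']
  split_ifs with h
  · rfl
  · rw [notMem_support_iff.mp h]
    ring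

/-- evaluation of polynomials with coefficients in a subring -/
theorem coeff_mem (S : Subring F) (W : MvPolynomial (Fin 3) F) (hW : ∀ a, W.coeff a ∈ S)
    (ρ : Fin 3 → Polynomial F) (hρ : ∀ i n, (ρ i).coeff n ∈ S) (n : ℕ) :
    (eval₂Hom (Polynomial.C : F →+* Polynomial F) ρ W).coeff n ∈ S := by
  have hr : ∀ p : Polynomial F, (∀ n, p.coeff n ∈ S) →
      p ∈ (Polynomial.mapRingHom S.subtype).range := by
    intro p hp
    rw [Polynomial.mem_map_range]
    intro n
    exact ⟨⟨_, hp n⟩, rfl⟩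
  have h : eval₂Hom (Polynomial.C : F →+* Polynomial F) ρ W ∈
      (Polynomial.mapRingHom S.subtype).range := by
    rw [coe_eval₂Hom, eval₂_eq']
    refine Subring.sum_mem _ fun α _ => Subring.mul_mem _ (hr _ fun n => ?_)
      (Subring.prod_mem _ fun i _ => Subring.pow_mem _ (hr _ (hρ i)) _)
    rw [Polynomial.coeff_C]
    split_ifs
    · exact hW α
    · exact S.zero_mem
  rw [Polynomial.mem_map_range] at h
  obtain ⟨y, hy⟩ := h n
  rw [← hy]
  exact y.2

/-- top coefficient after an affine substitution -/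
theorem comp_top {R : Type} [CommRing R] (P : Polynomial R) (s : ℕ) (hP : P.natDegree ≤ s)
    (a b : R) : (P.eval₂ Polynomial.C (Polynomial.C a * Polynomial.X + Polynomial.C b)).coeff s =
      P.coeff s * a ^ s := by
  rw [Polynomial.eval₂_eq_sum_range' _ (Nat.lt_succ_of_le hP), Polynomial.finsetSum_coeff,
    Finset.sum_range_succ, Finset.sum_eq_zero, zero_add]
  · rw [Polynomial.coeff_C_mul]
    congr 1
    have h := Polynomial.coeff_pow_of_natDegree_le
      (p := Polynomial.C a * Polynomial.X + Polynomial.C b) (n := 1) (m := s)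
      Polynomial.natDegree_linear_le
    rw [mul_one] at h
    rw [h]
    simp
  · intro j hj
    have h0 : ((Polynomial.C a * Polynomial.X + Polynomial.C b) ^ j).coeff s = 0 := by
      apply Polynomial.coeff_eq_zero_of_natDegree_lt
      refine lt_of_le_of_lt Polynomial.natDegree_pow_le ?_
      refine lt_of_le_of_lt (Nat.mul_le_mul_left j Polynomial.natDegree_linear_le) ?_
      rw [mul_one]
      exact Finset.mem_range.mp hj
    rw [Polynomial.coeff_C_mul, h0, mul_zero]

theorem psi_top (m : ℕ) (x g : Fin 3 → F) (G : F) (H : Fin 3 → Fin 3 → F) (t : F) (V : Q2 F)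
    (s : ℕ) (hV : V.natDegree ≤ s) (ρ : Fin 3 → Polynomial F) :
    eval₂Hom (Polynomial.C : F →+* Polynomial F) ρ ((Psi m x g G H t V).coeff s) =
      Polynomial.C ((m * G) ^ s) * eval₂Hom (Polynomial.C : F →+* Polynomial F)
        ![Polynomial.C (t ^ 2) * (Polynomial.C (g 1) * dp (fun i => Polynomial.C (x i)) ρ -
            Polynomial.C (m * G) * ρ 1),
          Polynomial.C (t ^ 2) * (Polynomial.C (g 2) * dp (fun i => Polynomial.C (x i)) ρ -
            Polynomial.C (m * G) * ρ 2)] (V.coeff s) := by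
  set φ : F →+* Polynomial (Polynomial F) := Polynomial.C.comp Polynomial.C with hφ
  have h1 := ev3_Psi φ m x g G H t (fun i => Polynomial.C (ρ i)) Polynomial.X V
  have h2 : ∀ W : C3 F, ev3 φ (fun i => Polynomial.C (ρ i)) Polynomial.X W =
      W.map (eval₂Hom (Polynomial.C : F →+* Polynomial F) ρ) := by
    intro W
    have h3 : ev3 φ (fun i => Polynomial.C (ρ i)) Polynomial.X =
        Polynomial.mapRingHom (eval₂Hom (Polynomial.C : F →+* Polynomial F) ρ) := by
      apply Polynomial.ringHom_ext'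
      · apply MvPolynomial.ringHom_ext
        · intro a
          simp [ev3, hφ]
        · intro i
          simp [ev3]
      · simp [ev3]
    rw [h3]
    rfl
  rw [h2] at h1
  set q : Fin 3 → Polynomial F := fun i => Polynomial.C (t ^ 2) *
    (Polynomial.C (g i) * dp (fun i => Polynomial.C (x i)) ρ - Polynomial.C (m * G) * ρ i) with hq
  obtain ⟨b, hb⟩ : ∃ b : Polynomial F, φ (m * G) * Polynomial.X - φ t ^ 6 *
      Pool.Agent.H92.SF.hq (fun i j => φ (H i j)) (cr (fun i => φ (g i)) fun i => Polynomial.C (ρ i))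
        (cr (fun i => φ (g i)) fun i => Polynomial.C (ρ i)) *
        dp (fun i => φ (x i)) (fun i => Polynomial.C (ρ i)) =
      Polynomial.C (Polynomial.C (m * G)) * Polynomial.X + Polynomial.C b := by
    refine ⟨-(Polynomial.C t ^ 6 * Pool.Agent.H92.SF.hq (fun i j => Polynomial.C (H i j))
      (cr (fun i => Polynomial.C (g i)) ρ) (cr (fun i => Polynomial.C (g i)) ρ) *
      dp (fun i => Polynomial.C (x i)) ρ), ?_⟩
    simp only [hφ, RingHom.comp_apply, Pool.Agent.H92.SF.hq, cr, dp, map_neg, map_mul, map_pow,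
      map_sum, map_sub]
    ring
  have h4 : ∀ W : Q2 F, ev2 φ (fun i => Polynomial.C (q i))
      (Polynomial.C (Polynomial.C (m * G)) * Polynomial.X + Polynomial.C b) W =
      (W.map (eval₂Hom (Polynomial.C : F →+* Polynomial F) ![q 1, q 2])).eval₂ Polynomial.C
        (Polynomial.C (Polynomial.C (m * G)) * Polynomial.X + Polynomial.C b) := by
    intro W
    rw [Polynomial.eval₂_map, ev2, Polynomial.coe_eval₂RingHom]
    congr 1
    apply MvPolynomial.ringHom_ext
    · intro a
      simp [hφ]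
    · intro i
      fin_cases i <;> simp
  have h5 : (fun i => φ t ^ 2 * (φ (g i) * dp (fun i => φ (x i)) (fun i => Polynomial.C (ρ i)) -
      φ (m * G) * Polynomial.C (ρ i))) = fun i => Polynomial.C (q i) := by
    funext i
    simp only [hφ, hq, RingHom.comp_apply, dp, map_mul, map_pow, map_sum, map_sub]
  rw [h5, hb, h4] at h1
  have h6 := congrArg (fun P => Polynomial.coeff P s) h1
  rw [Polynomial.coeff_map, comp_top _ _ (le_trans Polynomial.natDegree_map_le hV),
    Polynomial.coeff_map] at h6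
  rw [h6, mul_comm, ← map_pow]

end Aux

theorem pf_UTW (hDAT : T_DAT) (hFRK : T_FRK) (hBAS : T_BAS) : T_UTW := by
  classical
  intro k F _ _ _ _ _ u dd δ j0 c0 J m G hG n V hV hint s a ha hVs hVa
  obtain ⟨hD, hu0, hJ0, hmG, -, -, -, -, hIg, -⟩ := hDAT k F u dd δ j0 c0 J m G hG.toBs
  obtain ⟨hind, -, -, hIK, -, -⟩ := hFRK k F u dd δ j0 c0 J m G hG.toBs
  obtain ⟨N, z, hz, hN0, hN2⟩ := hBAS k F u dd δ j0 c0 J m G hG
  have : CharZero F := charZero_of_injective_algebraMap (algebraMap k F).injective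
  have hmF : (m : F) ≠ 0 := left_ne_zero_of_mul hmG
  obtain ⟨S, hS⟩ : ∃ S : Subring F, ∀ x, x ∈ S ↔ ItK k u x :=
    ⟨(Bb (kap k u) ![u 0, u 2]).toSubring, fun x => Iff.rfl⟩
  have hSk : ∀ c : k, algebraMap k F c ∈ S := by
    intro c
    rw [hS]
    exact (Bb (kap k u) ![u 0, u 2]).algebraMap_mem (algebraMap k _ c)
  have hItg : ∀ x, Itg k u x → x ∈ S := fun x hx => (hS x).mpr (hIK x hx)
  have hSu : ∀ i, u i ∈ S := by
    intro i
    apply hItg
    have h := ((aeval u : MvPolynomial (Fin 3) k →ₐ[k] F) :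
      MvPolynomial (Fin 3) k →+* F).isIntegralElem_map (x := X i)
    simpa [Itg] using h
  have hSJ : aeval u J ∈ S := hItg _ (((aeval u : MvPolynomial (Fin 3) k →ₐ[k] F) :
    MvPolynomial (Fin 3) k →+* F).isIntegralElem_map)
  have hSG : G ∈ S := hItg _ hG.itg
  have hSm : (m : F)⁻¹ ∈ S := by
    have h := hSk ((m : k)⁻¹)
    rwa [map_inv₀, map_natCast] at h
  set Jf : F := aeval u J with hJf
  set g2 : F := dd 2 G with hg2
  have hSg : Jf * g2 ∈ S := hItg _ (hIg 2)
  have hdeg : V.natDegree ≤ s := by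
    rw [Polynomial.natDegree_le_iff_coeff_eq_zero]
    exact hVs
  have hhom : (V.coeff s).IsHomogeneous (n - 3 * s) := (hV s).1 (by omega)
  -- evaluation
  have key : ∀ e : Fin 3 → F, (∀ i, e i ∈ S) →
      ((m : F) * G) ^ s * ((V.coeff s).coeff a * (Jf ^ 2 * (m * G) * u 0) ^ a 0 *
        (Jf ^ 2 * (g2 * dp u e - m * G * e 2)) ^ a 1) ∈ S := by
    intro e he
    set ρ : Fin 3 → Polynomial F := ![Polynomial.C (u 1) * Polynomial.X + Polynomial.C (e 0),
      -(Polynomial.C (u 0) * Polynomial.X) + Polynomial.C (e 1), Polynomial.C (e 2)] with hρ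
    have hρS : ∀ i n, (ρ i).coeff n ∈ S := by
      intro i n'
      have hX : (Polynomial.X : Polynomial F).coeff n' ∈ S := by
        rw [Polynomial.coeff_X]
        split_ifs
        · exact S.one_mem
        · exact S.zero_mem
      have hC : ∀ c ∈ S, (Polynomial.C c : Polynomial F).coeff n' ∈ S := by
        intro c hc
        rw [Polynomial.coeff_C]
        split_ifs
        · exact hc
        · exact S.zero_mem
      fin_cases i
      · show (Polynomial.C (u 1) * Polynomial.X + Polynomial.C (e 0)).coeff n' ∈ S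
        rw [Polynomial.coeff_add, Polynomial.coeff_C_mul]
        exact S.add_mem (S.mul_mem (hSu 1) hX) (hC _ (he 0))
      · show (-(Polynomial.C (u 0) * Polynomial.X) + Polynomial.C (e 1)).coeff n' ∈ S
        rw [Polynomial.coeff_add, Polynomial.coeff_neg, Polynomial.coeff_C_mul]
        exact S.add_mem (S.neg_mem (S.mul_mem (hSu 0) hX)) (hC _ (he 1))
      · exact hC _ (he 2)
    have h1 := coeff_mem S ((Ps u dd J m G V).coeff s) (fun α => (hS _).mpr (hint s α)) ρ hρS (a 0)
    have h2 := psi_top m u (grd dd G) G (hes dd G) Jf V s hdeg ρ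
    rw [show Ps u dd J m G V = Psi m u (grd dd G) G (hes dd G) Jf V from rfl, h2,
      Polynomial.coeff_C_mul] at h1
    have h3 : (![Polynomial.C (Jf ^ 2) * (Polynomial.C (grd dd G 1) *
            dp (fun i => Polynomial.C (u i)) ρ - Polynomial.C (m * G) * ρ 1),
          Polynomial.C (Jf ^ 2) * (Polynomial.C (grd dd G 2) *
            dp (fun i => Polynomial.C (u i)) ρ - Polynomial.C (m * G) * ρ 2)] :
          Fin 2 → Polynomial F) =
        ![Polynomial.C (Jf ^ 2 * (m * G) * u 0) * Polynomial.X +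
            Polynomial.C (Jf ^ 2 * (grd dd G 1 * dp u e - m * G * e 1)),
          Polynomial.C (Jf ^ 2 * (g2 * dp u e - m * G * e 2))] := by
      have h4 : dp (fun i => Polynomial.C (u i)) ρ = Polynomial.C (dp u e) := by
        simp only [dp, Fin.sum_univ_three, hρ, Matrix.cons_val_zero, Matrix.cons_val_one,
          Matrix.cons_val, map_add, map_mul]
        ring
      rw [h4]
      funext i
      fin_cases i
      · simp only [hρ, Matrix.cons_val_zero, Matrix.cons_val_one, map_sub, map_mul,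
          map_pow, Fin.zero_eta]
        ring
      · simp only [hρ, Matrix.cons_val_one, Matrix.cons_val, map_sub, map_mul, map_pow,
          Fin.mk_one, grd, hg2]
    rw [h3, coeff_top (V.coeff s) (n - 3 * s) hhom a (by omega) hVa] at h1
    exact h1
  set c : F := (V.coeff s).coeff a with hc
  set i := n - 3 * s with hi
  set b := a 0 with hb
  set a' := a 1 with ha'
  set Xx : F := c * ((m : F) * G) ^ s * (Jf ^ 2 * (m * G) * u 0) ^ b * Jf ^ a' with hXx
  -- two elements
  have k1 : Xx * (Jf * g2 * u 0) ^ a' ∈ S := by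
    have h := key ![1, 0, 0] (by
      intro i
      fin_cases i
      · exact S.one_mem
      · exact S.zero_mem
      · exact S.zero_mem)
    have h5 : dp u ![1, 0, 0] = u 0 := by simp [dp, Fin.sum_univ_three]
    rw [h5] at h
    have h6 : Jf ^ 2 * (g2 * u 0 - m * G * (![1, 0, 0] : Fin 3 → F) 2) = Jf * (Jf * g2 * u 0) := by
      simp only [Matrix.cons_val]
      ring
    rw [h6, mul_pow Jf] at h
    have h7 : Xx * (Jf * g2 * u 0) ^ a' = ((m : F) * G) ^ s * (c * (Jf ^ 2 * (m * G) * u 0) ^ b *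
        (Jf ^ a' * (Jf * g2 * u 0) ^ a')) := by
      rw [hXx]
      ring
    rw [h7]
    exact h
  have k2 : Xx * (Jf * g2 * u 2 - m * Jf * G) ^ a' ∈ S := by
    have h := key ![0, 0, 1] (by
      intro i
      fin_cases i
      · exact S.zero_mem
      · exact S.zero_mem
      · exact S.one_mem)
    have h5 : dp u ![0, 0, 1] = u 2 := by simp [dp, Fin.sum_univ_three]
    rw [h5] at h
    have h6 : Jf ^ 2 * (g2 * u 2 - m * G * (![0, 0, 1] : Fin 3 → F) 2) =
        Jf * (Jf * g2 * u 2 - m * Jf * G) := by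
      simp only [Matrix.cons_val]
      ring
    rw [h6, mul_pow Jf] at h
    have h7 : Xx * (Jf * g2 * u 2 - m * Jf * G) ^ a' = ((m : F) * G) ^ s *
        (c * (Jf ^ 2 * (m * G) * u 0) ^ b * (Jf ^ a' * (Jf * g2 * u 2 - m * Jf * G) ^ a')) := by
      rw [hXx]
      ring
    rw [h7]
    exact h
  set φ : MvPolynomial (Fin 2) (kap k u) →+* F :=
    ((aeval ![u 0, u 2] : MvPolynomial (Fin 2) (kap k u) →ₐ[kap k u] F) :
      MvPolynomial (Fin 2) (kap k u) →+* F) with hφ
  have hSφ : ∀ x, x ∈ S ↔ φ.IsIntegralElem x := hS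
  have k3 : Xx * (Jf * g2 * u 0 * u 2) ^ a' ∈ S := by
    have h : Xx * (Jf * g2 * u 0 * u 2) ^ a' = Xx * (Jf * g2 * u 0) ^ a' * u 2 ^ a' := by
      rw [mul_pow _ (u 2)]
      ring
    rw [h]
    exact S.mul_mem k1 (S.pow_mem (hSu 2) _)
  have k4 : Xx * ((Jf * g2 * u 2 - m * Jf * G) * u 0) ^ a' ∈ S := by
    have h : Xx * ((Jf * g2 * u 2 - m * Jf * G) * u 0) ^ a' =
        Xx * (Jf * g2 * u 2 - m * Jf * G) ^ a' * u 0 ^ a' := by
      rw [mul_pow _ (u 0)]
      ring
    rw [h]
    exact S.mul_mem k2 (S.pow_mem (hSu 0) _)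
  have k5 : Xx * (Jf * G * u 0) ^ a' ∈ S := by
    have h := Pool.Agent.H62.HIL.pf_MON' φ ((hSφ _).mp k3) ((hSφ _).mp k4)
      ((hSφ _).mp hSm) ((hSφ _).mp (S.neg_mem hSm))
    have h8 : (m : F)⁻¹ * (Jf * g2 * u 0 * u 2) + -(m : F)⁻¹ *
        ((Jf * g2 * u 2 - m * Jf * G) * u 0) = Jf * G * u 0 := by
      field_simp
      ring
    rw [h8] at h
    exact (hSφ _).mpr h
  set Y : F := Xx * u 0 ^ a' with hY
  have k6 : Y * (Jf * G) ^ a' ∈ S := by
    have h : Y * (Jf * G) ^ a' = Xx * (Jf * G * u 0) ^ a' := by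
      rw [hY, mul_pow _ (u 0)]
      ring
    rw [h]
    exact k5
  have k7 : Y * (Jf * (Jf * g2)) ^ a' ∈ S := by
    have h : Y * (Jf * (Jf * g2)) ^ a' = Xx * (Jf * g2 * u 0) ^ a' * Jf ^ a' := by
      rw [hY, mul_pow _ (u 0), mul_pow Jf]
      ring
    rw [h]
    exact S.mul_mem k1 (S.pow_mem hSJ _)
  have k8 : ∀ (z1 z2 w : F), z1 ∈ S → z2 ∈ S → w = G * z1 + Jf * g2 * z2 →
      Y * (Jf * w) ^ a' ∈ S := by
    intro z1 z2 w h1 h2 h3
    have h := Pool.Agent.H62.HIL.pf_MON' φ ((hSφ _).mp k6) ((hSφ _).mp k7)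
      ((hSφ _).mp h1) ((hSφ _).mp h2)
    have h8 : z1 * (Jf * G) + z2 * (Jf * (Jf * g2)) = Jf * w := by
      rw [h3]
      ring
    rw [h8] at h
    exact (hSφ _).mpr h
  have k9 := k8 _ _ _ ((hS _).mpr (hz 0)) ((hS _).mpr (hz 1)) hN0
  have k10 := k8 _ _ _ ((hS _).mpr (hz 2)) ((hS _).mpr (hz 3)) hN2
  have hv0 : φ (X 0) = u 0 := by simp [hφ]
  have hv1 : φ (X 1) = u 2 := by simp [hφ]
  have k11 : Y * Jf ^ a' ∈ S := by
    rw [hSφ]
    refine Pool.Agent.H62.HIL.pf_SAT φ hind
      (Pool.Agent.H62.HIL.isRelPrime_X (κ := kap k u) (i := (0 : Fin 2)) (j := 1) (by decide)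
        (N * a') (N * a')) (pow_ne_zero _ (X_ne_zero _)) (pow_ne_zero _ (X_ne_zero _)) ?_ ?_
    · rw [map_pow, hv0, ← hSφ]
      have h : u 0 ^ (N * a') * (Y * Jf ^ a') = Y * (Jf * u 0 ^ N) ^ a' := by
        rw [mul_pow, ← pow_mul]
        ring
      rw [h]
      exact k9
    · rw [map_pow, hv1, ← hSφ]
      have h : u 2 ^ (N * a') * (Y * Jf ^ a') = Y * (Jf * u 2 ^ N) ^ a' := by
        rw [mul_pow, ← pow_mul]
        ring
      rw [h]
      exact k10
  have hfin : c * G ^ (s + b) * Jf ^ (2 * i) * u 0 ^ i = ((m : F)⁻¹) ^ (s + b) * (Y * Jf ^ a') := by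
    have hbi : i = b + a' := by omega
    rw [hY, hXx, hbi, inv_pow]
    have hm' : (m : F) ^ (s + b) ≠ 0 := pow_ne_zero _ hmF
    rw [eq_inv_mul_iff_mul_eq₀ hm']
    rw [mul_pow (m : F) G s, mul_pow (Jf ^ 2 * (m * G)) (u 0) b, mul_pow (Jf ^ 2) _ b,
      mul_pow (m : F) G b, ← pow_mul]
    ring
  rw [← hS, hfin]
  exact S.mul_mem (S.pow_mem hSm _) k11

end Pool.Agent.H92.SFU
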