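import Pool.Agent.H92.SFU.All0
import Pool.Agent.H92.SFU.UTW
import Pool.Agent.H92.SFU.UTH
import Pool.Agent.H19.SFU.TRY

/-!
# MP_70ba79_ag, THEOREM S: `T_NEG`, `T_MLF`, `T_MLT` (all rows of `sfu_modules` closed)
-/

set_option autoImplicit false

namespace Pool.Agent.H92.SFU

open Pool.Agent.H3.SF Pool.Agent.H92.SF

theorem utw : T_UTW := pf_UTW dat frk bas
theorem uth : T_UTH := pf_UTH dat frk deg fac utw
theorem tryy : T_TRY := Pool.Agent.H19.SFU.pf_TRY dat trx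

theorem neg : Pool.Agent.H3.SF.T_NEG := neg0 uth tryy
theorem mlf : Pool.Agent.H3.SF.T_MLF := mlf0 uth tryy
theorem mlt : Pool.Agent.H3.SF.T_MLT := mlt0 uth tryy

end Pool.Agent.H92.SFU
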