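import Pool.Agent.H92.SF.LUA
import Pool.Agent.H62.HIL.Rows
import Pool.Agent.H30.SFH.DEN
import Pool.Agent.H30.SFH.NRM
import Pool.Agent.H14.SFH.HMP
import Pool.Agent.H14.SFH.MPH
import Pool.Agent.H77.SFH.PEN
import Pool.Agent.H91.SFH.SF1
import Pool.Agent.H94.SFH.SF2
import Pool.Agent.H35.SFH.NDV
import Pool.Agent.H19.SRF.TWM
import Pool.Agent.H10.SFU.LON
import Pool.Agent.H14.SFU.HIV
import Pool.Agent.H14.SFU.HMR
import Pool.Agent.H14.SFU.QSC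
import Pool.Agent.H14.SFU.UPN
import Pool.Agent.H19.SFU.KQA
import Pool.Agent.H19.SFU.RES
import Pool.Agent.H33.SFU.CTP
import Pool.Agent.H33.SFU.LMG
import Pool.Agent.H35.SFU.DAT
import Pool.Agent.H37.SFU.CPC
import Pool.Agent.H37.SFU.FRK
import Pool.Agent.H40.SFU.FGB
import Pool.Agent.H45.SFU.NUN
import Pool.Agent.H48.SFU.BAS
import Pool.Agent.H49.SFU.FAC
import Pool.Agent.H51.SFU.NUT
import Pool.Agent.H51.SFU.REB
import Pool.Agent.H54.SFU.PEN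
import Pool.Agent.H60.SFU.DEG
import Pool.Agent.H60.SFU.FIN
import Pool.Agent.H66.SFU.REA
import Pool.Agent.H67.SFU.LTC
import Pool.Agent.H67.SFU.LTW
import Pool.Agent.H67.SFU.RED
import Pool.Agent.H68.SFU.TRX
import Pool.Agent.H72.SFU.UON
import Pool.Agent.H74.SFU.UPG
import Pool.Agent.H75.SFU.KER
import Pool.Agent.H75.SFU.NSA
import Pool.Agent.H77.SFU.RDT
import Pool.Agent.H86.SFU.MUL
import Pool.Agent.H95.SFU.LNU
import Pool.Agent.H95.SFU.NUF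

/-!
# MP_70ba79_ag, THEOREM S: closed rows of the board `sfu_modules`
-/

set_option autoImplicit false

namespace Pool.Agent.H92.SFU

open Pool.Agent.H3.SF Pool.Agent.H92.SF

theorem sf1 : Pool.Agent.H3.SF.T_SF1 := Pool.Agent.H91.SFH.pf_SF1
theorem dat : T_DAT := Pool.Agent.H35.SFU.pf_DAT
theorem hmr : T_HMR := Pool.Agent.H14.SFU.pf_HMR
theorem hiv : T_HIV := Pool.Agent.H14.SFU.pf_HIV hmr dat
theorem deg : T_DEG := Pool.Agent.H60.SFU.pf_DEG dat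
theorem fin : T_FIN := Pool.Agent.H60.SFU.pf_FIN dat deg
theorem fac : Pool.Agent.H92.SF.T_FAC := Pool.Agent.H49.SFU.pf_FAC
theorem ctp : T_CTP := Pool.Agent.H33.SFU.pf_CTP dat
theorem pen0 : Pool.Agent.H62.HIL.T_PEN := Pool.Agent.H77.SFH.pf_PEN Pool.Agent.H14.SFH.pf_HMP
theorem frk : T_FRK := Pool.Agent.H37.SFU.pf_FRK pen0 dat
theorem uon : T_UON := Pool.Agent.H72.SFU.pf_UON dat fin frk
theorem bas : T_BAS := Pool.Agent.H48.SFU.pf_BAS dat frk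
theorem cpc : T_CPC := Pool.Agent.H37.SFU.pf_CPC
theorem lmg : T_LMG := Pool.Agent.H33.SFU.pf_LMG Pool.Agent.H62.HIL.pfr_LMH
  Pool.Agent.H30.SFH.pf_NRM Pool.Agent.H62.HIL.pfr_NGD pen0 frk dat cpc
theorem trx : T_TRX := Pool.Agent.H68.SFU.pf_TRX dat
theorem sf2 : Pool.Agent.H3.SF.T_SF2 := Pool.Agent.H94.SFH.pf_SF2 sf1 Pool.Agent.H62.HIL.pfr_NGD
  Pool.Agent.H35.SFH.pf_NDV
theorem pen : T_PEN := Pool.Agent.H54.SFU.pf_PEN sf2 trx
theorem nsa : T_NSA := Pool.Agent.H75.SFU.pf_NSA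
theorem nuf : T_NUF := Pool.Agent.H95.SFU.pf_NUF nsa
theorem nut : T_NUT := Pool.Agent.H51.SFU.pf_NUT nsa
theorem nun : T_NUN := Pool.Agent.H45.SFU.pf_NUN nsa
theorem mul : T_MUL := Pool.Agent.H86.SFU.pf_MUL dat Pool.Agent.H19.SRF.pf_TWM
theorem qsc : T_QSC := Pool.Agent.H14.SFU.pf_QSC dat
theorem rea : T_REA := Pool.Agent.H66.SFU.pf_REA hiv dat
theorem reb : T_REB := Pool.Agent.H51.SFU.pf_REB hmr
theorem fgb : T_FGB := Pool.Agent.H40.SFU.pf_FGB dat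
theorem red : T_RED := Pool.Agent.H67.SFU.pf_RED dat rea reb fgb
theorem ltc : T_LTC := Pool.Agent.H67.SFU.pf_LTC dat mul qsc red
theorem kqa : T_KQA := Pool.Agent.H19.SFU.pf_KQA dat
theorem ker : T_KER := Pool.Agent.H75.SFU.pf_KER dat kqa
theorem lon : T_LON := Pool.Agent.H10.SFU.pf_LON fin dat ltc ker
theorem res : T_RES := Pool.Agent.H19.SFU.pf_RES dat
theorem rdt : T_RDT := Pool.Agent.H77.SFU.pf_RDT
theorem ltw : T_LTW := Pool.Agent.H67.SFU.pf_LTW dat deg fin res rdt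
theorem lnu : T_LNU := Pool.Agent.H95.SFU.pf_LNU nsa
theorem lov : T_LOV := pf_LOV lnu lon ltw

theorem den : Pool.Agent.H3.SF.T_DEN := Pool.Agent.H30.SFH.pf_DEN Pool.Agent.H14.SFH.pf_MPH
  Pool.Agent.H14.SFH.pf_HMP Pool.Agent.H62.HIL.pfr_NGD

theorem neg0 (hUTH : T_UTH) (hTRY : T_TRY) : T_NEG :=
  pf_NEG lov nun (Pool.Agent.H14.SFU.pf_UPN frk fin uon hUTH lmg) hTRY pen

theorem mlf0 (hUTH : T_UTH) (hTRY : T_TRY) : T_MLF :=
  pf_MLF lov nuf (Pool.Agent.H74.SFU.pf_UPG fin frk fac uon hUTH) hTRY pen lmg ctp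

theorem mlt0 (hUTH : T_UTH) (hTRY : T_TRY) : T_MLT :=
  pf_MLT lov nut (Pool.Agent.H74.SFU.pf_UPG fin frk fac uon hUTH) trx hTRY pen lmg frk deg
    den sf1

end Pool.Agent.H92.SFU
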